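import Mathlib
import Pool.Agent.K3h2.HA.Glo
import Pool.Agent.Results.MP_f5a5f7_nt.LempelZivNumbers

/-!
# The discriminant of a hyperelliptic curve and the largest height of a cross ratio

Let `C : y² = d (X - e_0) ⋯ (X - e_2g)` be a hyperelliptic curve of genus `g ≥ 2` over a number field
`K` with rational Weierstrass points; the cross ratios of `∞` and three of the roots are the
`(e_i - e_j) / (e_i - e_k)`.

1. If all these cross ratios have height at most `H`, then
   `log Δ_C ≤ (4 g + 2) log M_C + 2 (4 g² - 1) [K : ℚ] H + c`, for all quadratic twists.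
2. If the cross ratio of largest height is a number with Lempel-Ziv compressible coordinates (this
   contains the numbers whose coordinates are short sums of `S`-units with small coefficients), and so is
   its radical, then `Δ_C ≤ c M_C ^ κ` for every `κ > 8 g² + 4 g` and all quadratic twists. The other
   roots may be arbitrary, except that no cross ratio has a larger height.

The exponent is the sum of `4 g + 2` (the quadratic twist) and of `2 (4 g² - 1)`, which comes from the
mean over all pairs of roots of the discriminants of the models in which the two roots are moved to two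
points with unit difference: the mean of the exponents is `2 / g` times the sum over the triples of
roots of the local heights of `{0, 1, ∞}` at their cross ratios.
-/

set_option autoImplicit false

open NumberField Polynomial
open Pool.Agent.W318 (discNorm badNorm)
open Pool.Agent.Results.MP_f5a5f7_nt.SparseNumbers (h cond counting logDisc logDiscBasis IsRadical
  SpansIntegers placesOver)
open Pool.Agent.Results.MP_f5a5f7_nt.LempelZivNumbers (IsLZNumber)

namespace Pool.Agent.Results.MP_ca2859_nt.LargestCrossRatio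

/-- the right hand side of `y² = d ∏ (X - e_i)` -/
noncomputable def curve {K : Type} [Field K] {m : ℕ} (d : K) (e : Fin m → K) : K[X] :=
  C d * ∏ i, (X - C (e i))

/-- the cross ratio of `∞` and the roots `e_i`, `e_j`, `e_k` -/
def ratio {K : Type} [Field K] {m : ℕ} (e : Fin m → K) (i j k : Fin m) : K :=
  (e i - e j) / (e i - e k)

/-- No cross ratio of `∞` and three different roots has a larger height than the one of `∞`, `e_i`,
`e_j`, `e_k`. -/
def IsLargest {K : Type} [Field K] [NumberField K] {m : ℕ} (e : Fin m → K) (i j k : Fin m) : Prop :=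
  i ≠ j ∧ i ≠ k ∧ j ≠ k ∧
    ∀ i' j' k', i' ≠ j' → i' ≠ k' → j' ≠ k' → h (ratio e i' j' k') ≤ h (ratio e i j k)

theorem result (K : Type) [Field K] [NumberField K] (g : ℕ) (hg : 2 ≤ g) :
    (∃ c : ℝ, ∀ e : Fin (2 * g + 1) → K, Function.Injective e → ∀ d : K, d ≠ 0 → ∀ H : ℝ,
      (∀ i j k, i ≠ j → i ≠ k → j ≠ k → h (ratio e i j k) ≤ H) →
      Real.log (discNorm g (curve d e)) ≤ (4 * g + 2) * Real.log (badNorm g (curve d e)) +
        2 * (4 * g ^ 2 - 1) * Module.finrank ℚ K * H + c) ∧
    ∀ (S : Finset ℕ), (∀ p ∈ S, p.Prime) → ∀ (μ : ℕ), 1 ≤ μ → ∀ (q : ℕ) (b : Fin q → ℕ),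
      (∀ i, 2 ≤ b i) → ∀ (z : ℕ) (B : ℤ), 0 ≤ B → ∀ (A ε : ℝ), 0 ≤ A → 0 < ε →
      ∃ δ c : ℝ, 0 < δ ∧ ∀ (e : Fin (2 * g + 1) → K), Function.Injective e → ∀ i j k,
        IsLargest e i j k → ∀ (n : ℕ) (ω : Module.Basis (Fin n) ℚ K) (s : K)
        (t : Fin 3 → Fin 3 → K) (ρ : K), IsLZNumber S μ b z B A δ ω (ratio e i j k) s t ρ →
        ∀ d : K, d ≠ 0 →
          Real.log (discNorm g (curve d e)) ≤ (4 * g + 2) * Real.log (badNorm g (curve d e)) +
            (2 * (4 * g ^ 2 - 1) + ε) * Module.finrank ℚ K * (counting S ρ + logDiscBasis S ω) +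
              c ∧
          (SpansIntegers S ω → IsRadical S (ratio e i j k) ρ →
            (discNorm g (curve d e) : ℝ) ≤
              c * (badNorm g (curve d e) : ℝ) ^ (8 * (g : ℝ) ^ 2 + 4 * g + ε)) := by
  classical
  have hgR : (2 : ℝ) ≤ g := by exact_mod_cast hg
  set N : ℝ := (Module.finrank ℚ K : ℝ) with hN
  have hN0 : 0 < N := by
    have : 0 < Module.finrank ℚ K := Module.finrank_pos
    rw [hN]
    exact_mod_cast this
  obtain ⟨c₁, hc₁⟩ := Pool.Agent.K3h2.HA.log_disc_le' K hg (rfl : 2 * g + 1 = 2 * g + 1)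
  have hh : ∀ x : K, Height.logHeight₁ x = N * h x := by
    intro x
    unfold h
    rw [← hN, mul_div_cancel₀ _ hN0.ne']
  have part1 : ∀ e : Fin (2 * g + 1) → K, Function.Injective e → ∀ d : K, d ≠ 0 → ∀ H : ℝ,
      (∀ i j k, i ≠ j → i ≠ k → j ≠ k → h (ratio e i j k) ≤ H) →
      Real.log (discNorm g (curve d e)) ≤ (4 * g + 2) * Real.log (badNorm g (curve d e)) +
        2 * (4 * g ^ 2 - 1) * N * H + c₁ := by
    intro e he d hd H hH
    have h1 := hc₁ e he d hd (N * H) (fun i j k hij hik hjk => by
      rw [hh]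
      exact mul_le_mul_of_nonneg_left (hH i j k hij hik hjk) hN0.le)
    refine h1.trans (le_of_eq ?_)
    push_cast
    change 2 * (2 * (g : ℝ) + 1) * Real.log (badNorm g (curve d e)) +
      2 * (2 * g + 1) * (2 * g + 1 - 2) * (N * H) + c₁ = _
    ring
  refine ⟨⟨c₁, part1⟩, ?_⟩
  intro S hS μ hμ q b hb z B hB A ε hA hε
  set E : ℝ := 2 * (4 * (g : ℝ) ^ 2 - 1) with hE
  have hE0 : 0 < E := by
    rw [hE]
    nlinarith
  obtain ⟨δ, C, hδ, hmain⟩ := Pool.Agent.Results.MP_f5a5f7_nt.LempelZivNumbers.result S hS
    (Module.finrank ℚ K) μ hμ q b hb z B hB A (ε / E) hA (div_pos hε hE0)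
  set two : ℝ := ∑ v ∈ (Pool.Agent.TH905.HS.finite_two K).toFinset,
    Real.log (Pool.Agent.H691R3.Nv v) with htwo
  set c₂ : ℝ := |E * N * C + c₁| + |(E + ε) * (two + N * logDisc K) + E * N * C + c₁| with hc₂
  refine ⟨δ, Real.exp c₂, hδ, ?_⟩
  intro e he i j k ⟨hij, hik, hjk, hmax⟩ n ω s t ρ hlz d hd
  have hn : n ≤ Module.finrank ℚ K := by
    have := Module.finrank_eq_card_basis ω
    rw [Fintype.card_fin] at this
    omega
  have hx0 : ratio e i j k ≠ 0 := Pool.Agent.K3h2.HA.ratio_ne_zero he hij hik
  have hx1 : ratio e i j k ≠ 1 := Pool.Agent.K3h2.HA.ratio_ne_one he hik hjk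
  obtain ⟨h1, h2⟩ := hmain n hn K ω (ratio e i j k) s t ρ hx0 hx1 hlz
  have h3 := part1 e he d hd (h (ratio e i j k)) hmax
  have hexp : c₂ ≤ Real.exp c₂ := by
    have := Real.add_one_le_exp c₂
    linarith
  have hEN : 0 ≤ E * N := (mul_pos hE0 hN0).le
  refine ⟨?_, fun hspan hrad => ?_⟩
  · have h4 := mul_le_mul_of_nonneg_left h1 hEN
    have h5 : E * N * ((1 + ε / E) * (counting S ρ + logDiscBasis S ω) + C) =
        (E + ε) * N * (counting S ρ + logDiscBasis S ω) + E * N * C := by
      field_simp
    rw [h5] at h4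
    have h6 : E * N * C + c₁ ≤ c₂ := by
      have := le_abs_self (E * N * C + c₁)
      have := abs_nonneg ((E + ε) * (two + N * logDisc K) + E * N * C + c₁)
      linarith
    linarith
  · have h4 := mul_le_mul_of_nonneg_left (h2 hspan hrad) hEN
    -- the conductors
    have h7 : N * (cond S (ratio e i j k) + cond S (ratio e i j k)⁻¹ +
        cond S (ratio e i j k - 1)) ≤ Real.log (badNorm g (curve d e)) + two := by
      set x := ratio e i j k with hx
      have hN' : ∀ y : K, N * cond S y = ∑ᶠ v ∈ {v : FinitePlace K | v ∉ placesOver K S ∧ v y < 1},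
          Real.log ((Ideal.absNorm v.maximalIdeal.asIdeal : ℕ) : ℝ) := by
        intro y
        unfold Pool.Agent.Results.MP_f5a5f7_nt.SparseNumbers.cond
        rw [← hN, mul_div_cancel₀ _ hN0.ne']
      have f1 : {v : FinitePlace K | v ∉ placesOver K S ∧ v x < 1}.Finite :=
        (Pool.Agent.Y724.T4.fin_ne_one hx0).subset fun v hv => hv.2.ne
      have f2 : {v : FinitePlace K | v ∉ placesOver K S ∧ v x⁻¹ < 1}.Finite :=
        (Pool.Agent.Y724.T4.fin_ne_one (inv_ne_zero hx0)).subset fun v hv => hv.2.ne
      have f3 : {v : FinitePlace K | v ∉ placesOver K S ∧ v (x - 1) < 1}.Finite :=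
        (Pool.Agent.Y724.T4.fin_ne_one (sub_ne_zero.2 hx1)).subset fun v hv => hv.2.ne
      rw [mul_add, mul_add, hN', hN', hN', finsum_mem_eq_finite_toFinset_sum _ f1,
        finsum_mem_eq_finite_toFinset_sum _ f2, finsum_mem_eq_finite_toFinset_sum _ f3]
      have d1 : Disjoint f1.toFinset f2.toFinset := by
        rw [Finset.disjoint_left]
        intro v hv hv'
        rw [Set.Finite.mem_toFinset] at hv hv'
        have e1 : v x < 1 := hv.2
        have e2 : v x⁻¹ < 1 := hv'.2
        rw [map_inv₀] at e2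
        have hxv : 0 < v x := v.1.pos hx0
        rw [inv_lt_one₀ hxv] at e2
        exact lt_irrefl _ (e1.trans e2)
      have d2 : Disjoint (f1.toFinset ∪ f2.toFinset) f3.toFinset := by
        rw [Finset.disjoint_left]
        intro v hv hv'
        rw [Set.Finite.mem_toFinset] at hv'
        have e3 : v (x - 1) < 1 := hv'.2
        rw [Finset.mem_union, Set.Finite.mem_toFinset, Set.Finite.mem_toFinset] at hv
        rcases hv with hv | hv
        · have e1 : v x < 1 := hv.2
          have e4 := FinitePlace.add_le v x (-(x - 1))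
          have e5 : v (-(x - 1)) = v (x - 1) := v.1.map_neg _
          have e6 : x + -(x - 1) = 1 := by ring
          rw [e5, e6, map_one] at e4
          exact absurd e4 (not_le.mpr (max_lt e1 e3))
        · have e1 : v x⁻¹ < 1 := hv.2
          rw [map_inv₀] at e1
          have hxv : 0 < v x := v.1.pos hx0
          rw [inv_lt_one₀ hxv] at e1
          have e4 := FinitePlace.add_le v (x - 1) 1
          rw [sub_add_cancel, map_one] at e4
          exact absurd e4 (not_le.mpr (max_lt (e3.trans e1) e1))
      rw [← Finset.sum_union d1, ← Finset.sum_union d2]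
      refine Pool.Agent.K3h2.HA.sum_cond_le hg rfl hd he hij hik hjk _ fun v hv => ?_
      rw [Finset.mem_union, Finset.mem_union, Set.Finite.mem_toFinset, Set.Finite.mem_toFinset,
        Set.Finite.mem_toFinset] at hv
      rcases hv with (hv | hv) | hv
      · exact Or.inl (ne_of_lt hv.2)
      · left
        intro e1
        have e2 : v x⁻¹ < 1 := hv.2
        have e3 : v x = 1 := e1
        rw [map_inv₀, e3, inv_one] at e2
        exact lt_irrefl _ e2
      · right
        intro e1
        have e2 : v (x - 1) < 1 := hv.2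
        have e3 : v (1 - x) = v (x - 1) := v.1.map_sub _ _
        have e4 : v (1 - x) = 1 := e1
        rw [← e3, e4] at e2
        exact lt_irrefl _ e2
    set M : ℝ := Real.log (badNorm g (curve d e)) with hM
    set Q : ℝ := cond S (ratio e i j k) + cond S (ratio e i j k)⁻¹ +
        cond S (ratio e i j k - 1) with hQ
    have h5 : E * N * ((1 + ε / E) * (Q + logDisc K) + C) =
        (E + ε) * (N * Q + N * logDisc K) + E * N * C := by
      field_simp
    rw [h5] at h4
    have h8 : (E + ε) * (N * Q + N * logDisc K) ≤ (E + ε) * (M + two + N * logDisc K) :=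
      mul_le_mul_of_nonneg_left (by linarith) (by linarith)
    have h9 : (E + ε) * (two + N * logDisc K) + E * N * C + c₁ ≤ c₂ := by
      have := le_abs_self ((E + ε) * (two + N * logDisc K) + E * N * C + c₁)
      have := abs_nonneg (E * N * C + c₁)
      linarith
    have h10 : Real.log (discNorm g (curve d e)) ≤ (8 * (g : ℝ) ^ 2 + 4 * g + ε) * M + c₂ := by
      have e1 : (8 * (g : ℝ) ^ 2 + 4 * g + ε) * M + c₂ =
          (4 * g + 2) * M + (E + ε) * M + c₂ := by
        rw [hE]
        ring
      rw [e1]
      nlinarith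
    have hΔ : (0 : ℝ) < discNorm g (curve d e) := by
      exact_mod_cast Pool.Agent.K3h2.HA.discNorm_pos' (g := g) rfl hd he
    have hMp : (0 : ℝ) < badNorm g (curve d e) := by
      exact_mod_cast Pool.Agent.K3h2.HA.badNorm_pos' (g := g) rfl hd he
    rw [← Real.exp_log hΔ, Real.rpow_def_of_pos hMp, ← Real.exp_add]
    refine Real.exp_le_exp.2 ?_
    rw [← hM]
    linarith

end Pool.Agent.Results.MP_ca2859_nt.LargestCrossRatio
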