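import Mathlib
import Pool.Agent.K3h24.SB.Main
import Pool.Agent.K3h24.SB.Law

/-!
# Hyperelliptic curves with rational Weierstrass points: Szpiro's inequality for ALL curves with good
reduction outside most sets of primes

Let `K` be a number field. The hyperelliptic curves of genus `g ≥ 2` over `K` all of whose
Weierstrass points are rational are, after an automorphism of the line, the curves
`C : y² = d x (x - 1) (x - l_1) … (x - l_m)`, `m = 2 g - 1`, with different `l_i ∈ K ∖ {0, 1}` and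
`d ∈ K ^ ×`. For a nonzero ideal `I` of the ring of integers we consider ALL these curves, of all genera
`g ≥ 2` at once, with good reduction at all primes which do not divide `I`; there is no condition on
heights. The ideals `I` are ordered by their norms.

1. For all but a proportion `ε` of the ideals `I` of norm at most `X`, for every `X ≥ 1`: the parameters
   `l_i` of ALL these curves belong to a finite set `F(ε)`, in particular `2 g - 1 ≤ |F(ε)|`, and
   `Δ_C ≤ c(ε) M_C ^ (4 g + 2)`. The exponent `4 g + 2` is the one for the twists of a single curve.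
2. The proportion of the ideals `I` such that a parameter of one of these curves has radical larger
   than `T` is at most `C T ^ (-1/3 + δ)`, uniformly in `X` and `T`.
3. The number of all parameters of all these curves is bounded on average; it is an upper bound for
   `2 g - 1`.

The input is the number `X ^ (2 / 3 + o(1))` of the `x ∈ K` of all heights with radical at most `X`
(starting files, `Pool.Agent.Y728.mainK`). `Δ_C` and `M_C` are `discNorm` and `badNorm` of
`Pool/Agent/W318/SzpDefs.lean`.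
-/

set_option autoImplicit false

namespace Pool.Agent.Results.MP_ca2859_nt.MostSetsOfBadPrimes

open Polynomial IsDedekindDomain NumberField Filter Topology
open Pool.Agent.W318 (discNorm badNorm minExp)

/-- The right hand side of `y² = d x (x - 1) (x - l_1) … (x - l_m)`. -/
noncomputable def curve {K : Type} [Field K] {m : ℕ} (d : K) (l : Fin m → K) : K[X] :=
  C d * (X * (X - 1) * ∏ i, (X - C (l i)))

variable {K : Type} [Field K] [NumberField K]

/-- The curve `y² = d x (x - 1) (x - l_1) … (x - l_m)` is a hyperelliptic curve of genus `g ≥ 2` with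
good reduction (that is, exponent `n_v = 0` of the minimal discriminant) at all primes which do not
divide `I`. -/
structure GoodOutside (I : Ideal (𝓞 K)) (g m : ℕ) (l : Fin m → K) (d : K) : Prop where
  two_le : 2 ≤ g
  number : m + 1 = 2 * g
  inj : Function.Injective l
  ne : ∀ i, l i ≠ 0 ∧ l i ≠ 1
  twist : d ≠ 0
  good : ∀ v : HeightOneSpectrum (𝓞 K), ¬ v.asIdeal ∣ I → minExp g (curve d l) v = 0

/-- All numbers `l_i` which occur in the equations of these curves. -/
def Parameters (I : Ideal (𝓞 K)) : Set K :=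
  {x | ∃ (g m : ℕ) (l : Fin m → K) (d : K), GoodOutside I g m l d ∧ ∃ i, l i = x}

/-- The product of the norms of the primes prime to `2` at which `x` reduces to `0`, `1` or `∞`. -/
noncomputable def radical (x : K) : ℝ :=
  ∏ᶠ v ∈ {v : HeightOneSpectrum (𝓞 K) | v.valuation K 2 = 1 ∧
    ¬ (v.valuation K x = 1 ∧ v.valuation K (1 - x) = 1)}, (Ideal.absNorm v.asIdeal : ℝ)

/-- The nonzero ideals of norm at most `X`. -/
def Ideals (K : Type) [Field K] [NumberField K] (X : ℝ) : Set (Ideal (𝓞 K)) :=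
  {I | I ≠ ⊥ ∧ (Ideal.absNorm I : ℝ) ≤ X}

section Aux

open Pool.Agent.K3h24.SB Pool.Agent.TH876.Loc Finset

theorem curve_eq {K : Type} [Field K] {m : ℕ} (d : K) (l : Fin m → K) :
    curve d l = Pool.Agent.TH905.HS.pol d (Pool.Agent.Y728.HY.cfg l) := by
  unfold curve Pool.Agent.TH905.HS.pol Pool.Agent.Y728.HY.cfg
  rw [Fin.prod_univ_succ, Fin.prod_univ_succ]
  simp [mul_assoc]

theorem good_iff (I : Ideal (𝓞 K)) (g m : ℕ) (l : Fin m → K) (d : K) :
    GoodOutside I g m l d ↔ Mem I g m l d := by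
  constructor
  · rintro ⟨h1, h2, h3, h4, h5, h6⟩
    exact ⟨h1, h2, h3, h4, h5, fun v hv => by rw [← curve_eq]; exact h6 v hv⟩
  · rintro ⟨h1, h2, h3, h4, h5, h6⟩
    exact ⟨h1, h2, h3, h4, h5, fun v hv => by rw [curve_eq]; exact h6 v hv⟩

theorem radical_eq {x : K} (hp : Pt (-x)) : radical x = nn (s2 x) := by
  classical
  have e : {v : HeightOneSpectrum (𝓞 K) | v.valuation K 2 = 1 ∧
      ¬ (v.valuation K x = 1 ∧ v.valuation K (1 - x) = 1)} =
      ((s2 x : Finset (Pr K)) : Set (Pr K)) := by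
    ext v
    rw [Finset.mem_coe, s2, Finset.mem_sdiff, mem_rad hp, mem_T2, not_not,
      Pool.Agent.Y729.FW.fv_eq_one_iff]
    exact ⟨fun h => ⟨h.2, h.1⟩, fun h => ⟨h.2, h.1⟩⟩
  unfold radical
  rw [e, finprod_mem_coe_finset]
  rfl

theorem par_sub (I : Ideal (𝓞 K)) : Parameters I ⊆ Sol s2 I := by
  rintro x ⟨g, m, l, d, h, i, rfl⟩
  exact ((good_iff _ _ _ _ _).1 h).sol i

end Aux

/-- **Szpiro's inequality for all hyperelliptic curves with rational Weierstrass points and good
reduction outside most sets of primes.** Let `K` be a number field.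
(1) For every `ε > 0` there are a finite set `F` and `c` such that, for every `X ≥ 1`, all but at most
the proportion `ε` of the nonzero ideals `I` of norm at most `X` have the following property: for
ALL hyperelliptic curves over `K` of any genus `g ≥ 2` with rational Weierstrass points and good
reduction outside `I`, all parameters are in `F` (so `2 g - 1 ≤ |F|`) and `Δ_C ≤ c M_C ^ (4 g + 2)`.
(2) The proportion of the ideals for which a parameter of one of these curves has radical larger than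
`T` is at most `C T ^ (-1/3 + δ)`.
(3) For each ideal the number of the parameters is finite and at least `2 g - 1`, and it is bounded on
average. -/
theorem result (K : Type) [Field K] [NumberField K] :
    (∀ ε : ℝ, 0 < ε → ∃ (F : Finset K) (c : ℝ), ∀ X : ℝ, 1 ≤ X →
      (({I ∈ Ideals K X | ¬ ∀ (g m : ℕ) (l : Fin m → K) (d : K), GoodOutside I g m l d →
        (∀ i, l i ∈ F) ∧ 2 * g - 1 ≤ F.card ∧
        (discNorm g (curve d l) : ℝ) ≤ c * (badNorm g (curve d l) : ℝ) ^ (4 * g + 2)}.ncard : ℕ) :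
          ℝ) ≤ ε * (Ideals K X).ncard) ∧
    (∀ δ : ℝ, 0 < δ → ∃ C : ℝ, ∀ T X : ℝ, 1 ≤ T → 1 ≤ X →
      (({I ∈ Ideals K X | ∃ x ∈ Parameters I, T < radical x}.ncard : ℕ) : ℝ) ≤
        C * T ^ (-(1 / 3) + δ) * (Ideals K X).ncard) ∧
    (∀ I : Ideal (𝓞 K), I ≠ ⊥ → (Parameters I).Finite ∧
      ∀ (g m : ℕ) (l : Fin m → K) (d : K), GoodOutside I g m l d →
        2 * g - 1 ≤ (Parameters I).ncard) ∧
    ∃ C : ℝ, ∀ X : ℝ, 1 ≤ X →
      ∑ᶠ I ∈ Ideals K X, ((Parameters I).ncard : ℝ) ≤ C * (Ideals K X).ncard := by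
  classical
  obtain ⟨c₀, hc₀, hlow⟩ := Pool.Agent.K3h24.SB.box_low K
  have hsecond : ∀ δ : ℝ, 0 < δ → ∃ C : ℝ, 0 < C ∧ ∀ T X : ℝ, 1 ≤ T → 1 ≤ X →
      (({I ∈ Ideals K X | ∃ x ∈ Parameters I, T < radical x}.ncard : ℕ) : ℝ) ≤
        C * T ^ (-(1 / 3) + δ) * (Ideals K X).ncard := by
    intro δ hδ
    obtain ⟨C, hC, h⟩ := Pool.Agent.K3h24.SB.rare (Pool.Agent.K3h24.SB.adm_s2 (K := K)) δ hδ
    refine ⟨C / c₀, by positivity, fun T X hT hX => ?_⟩
    have hsub : {I ∈ Ideals K X | ∃ x ∈ Parameters I, T < radical x} ⊆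
        {I ∈ Pool.Agent.K3h24.SB.Box K X | ∃ x ∈ Pool.Agent.K3h24.SB.Sol
          Pool.Agent.K3h24.SB.s2 I, T < Pool.Agent.TH876.Loc.nn (Pool.Agent.K3h24.SB.s2 x)} := by
      rintro I ⟨h1, x, h2, h3⟩
      have h4 := par_sub I h2
      refine ⟨h1, x, h4, ?_⟩
      rwa [radical_eq h4.1] at h3
    have h1 := Set.ncard_le_ncard hsub ((Pool.Agent.K3h24.SB.box_fin X).subset fun I hI => hI.1)
    have h2 := h T hT X (by linarith)
    have h3 := hlow X hX
    have hT0 : 0 < T ^ (-(1 / 3 : ℝ) + δ) := Real.rpow_pos_of_pos (by linarith) _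
    calc (({I ∈ Ideals K X | ∃ x ∈ Parameters I, T < radical x}.ncard : ℕ) : ℝ) ≤
        C * X * T ^ (-(1 / 3 : ℝ) + δ) := le_trans (by exact_mod_cast h1) h2
      _ = C / c₀ * T ^ (-(1 / 3 : ℝ) + δ) * (c₀ * X) := by field_simp
      _ ≤ C / c₀ * T ^ (-(1 / 3 : ℝ) + δ) * (Ideals K X).ncard :=
          mul_le_mul_of_nonneg_left h3 (by positivity)
  refine ⟨fun ε hε => ?_, fun δ hδ => ?_, fun I hI => ?_, ?_⟩
  · obtain ⟨C, hC, h⟩ := hsecond (1 / 6) (by norm_num)
    obtain ⟨T, hT1, hT⟩ : ∃ T : ℝ, 1 ≤ T ∧ C * T ^ (-(1 / 3 : ℝ) + 1 / 6) ≤ ε := by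
      have h1 : Tendsto (fun T : ℝ => C * T ^ (-(1 / 3 : ℝ) + 1 / 6)) atTop (𝓝 (C * 0)) := by
        refine Tendsto.const_mul C ?_
        have : (-(1 / 3 : ℝ) + 1 / 6) = -(1 / 6) := by norm_num
        rw [this]
        exact tendsto_rpow_neg_atTop (by norm_num)
      rw [mul_zero] at h1
      obtain ⟨N, hN⟩ := eventually_atTop.1 (h1.eventually_lt_const hε)
      exact ⟨max N 1, le_max_right _ _, (hN _ (le_max_left _ _)).le⟩
    obtain ⟨D, hD, hcnt⟩ := Pool.Agent.K3h24.SB.count (Pool.Agent.K3h24.SB.adm_s2 (K := K)) (1 / 6)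
      (by norm_num)
    obtain ⟨c, hc, hszp⟩ := Pool.Agent.K3h24.SB.szpiro_fin (hcnt T hT1).1.toFinset
    refine ⟨(hcnt T hT1).1.toFinset, c, fun X hX => ?_⟩
    refine le_trans ?_ ((h T X hT1 hX).trans (mul_le_mul_of_nonneg_right hT (Nat.cast_nonneg _)))
    have hfin : {I ∈ Ideals K X | ∃ x ∈ Parameters I, T < radical x}.Finite :=
      (Pool.Agent.K3h24.SB.box_fin (K := K) X).subset fun I hI => hI.1
    refine Nat.cast_le.2 (Set.ncard_le_ncard ?_ hfin)
    rintro I ⟨hI, hneg⟩
    refine ⟨hI, ?_⟩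
    by_contra hc'
    apply hneg
    intro g m l d hgood
    have hmem := (good_iff _ _ _ _ _).1 hgood
    have hF : ∀ i, l i ∈ (hcnt T hT1).1.toFinset := by
      intro i
      rw [Set.Finite.mem_toFinset]
      refine ⟨(hmem.sol i).1, ?_⟩
      rw [← radical_eq (hmem.sol i).1]
      by_contra h2
      exact hc' ⟨l i, ⟨g, m, l, d, hgood, i, rfl⟩, not_le.1 h2⟩
    refine ⟨hF, ?_, ?_⟩
    · have h1 : (Finset.univ.image l).card ≤ (hcnt T hT1).1.toFinset.card :=
        Finset.card_le_card fun x hx => by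
          obtain ⟨i, _, rfl⟩ := Finset.mem_image.1 hx
          exact hF i
      rw [Finset.card_image_of_injective _ hgood.inj, Finset.card_univ, Fintype.card_fin] at h1
      have := hgood.number
      omega
    · rw [curve_eq]
      exact hszp I g m l d hmem hF
  · obtain ⟨C, -, h⟩ := hsecond δ hδ
    exact ⟨C, h⟩
  · have hf := (Pool.Agent.K3h24.SB.sol_fin (Pool.Agent.K3h24.SB.adm_s2 (K := K)) hI).subset (par_sub I)
    refine ⟨hf, fun g m l d hgood => ?_⟩
    have h1 : Set.range l ⊆ Parameters I := by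
      rintro x ⟨i, rfl⟩
      exact ⟨g, m, l, d, hgood, i, rfl⟩
    have h2 := Set.ncard_le_ncard h1 hf
    rw [← Set.image_univ, Set.ncard_image_of_injective _ hgood.inj, Set.ncard_univ,
      Nat.card_eq_fintype_card, Fintype.card_fin] at h2
    have := hgood.number
    omega
  · obtain ⟨C, hC, h⟩ := Pool.Agent.K3h24.SB.average (Pool.Agent.K3h24.SB.adm_s2 (K := K))
    refine ⟨C / c₀, fun X hX => ?_⟩
    have e3 : Ideals K X =
        ((Pool.Agent.K3h24.SB.box_fin (K := K) X).toFinset : Set (Ideal (𝓞 K))) := by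
      rw [Set.Finite.coe_toFinset]
      rfl
    have h1 : ∑ᶠ I ∈ Ideals K X, ((Parameters I).ncard : ℝ) ≤ C * X := by
      rw [e3, finsum_mem_coe_finset]
      refine le_trans (Finset.sum_le_sum fun I hI => ?_) (h X (by linarith))
      rw [Set.Finite.mem_toFinset] at hI
      exact Nat.cast_le.2 (Set.ncard_le_ncard (par_sub I)
        (Pool.Agent.K3h24.SB.sol_fin (Pool.Agent.K3h24.SB.adm_s2 (K := K)) hI.1))
    have h3 := hlow X hX
    calc ∑ᶠ I ∈ Ideals K X, ((Parameters I).ncard : ℝ) ≤ C * X := h1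
      _ = C / c₀ * (c₀ * X) := by field_simp
      _ ≤ C / c₀ * (Ideals K X).ncard := mul_le_mul_of_nonneg_left h3 (by positivity)

end Pool.Agent.Results.MP_ca2859_nt.MostSetsOfBadPrimes
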