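import Pool.Agent.K3h74.SZ.Asm2
import Pool.Agent.K3h74.SZ.Dsta2
import Pool.Agent.K3h42.SZ.Torh2
import Pool.Agent.K3h99.SZ.TORA2
import Pool.Agent.K3h58.SZ.DstB2
import Pool.Agent.K3h40.SZ.VAL
import Pool.Agent.K3h58.SZ.Twi
import Pool.Agent.K3h13.SZ.Fac

/-!
# The exponent in the Szpiro-type bound for hyperelliptic curves is larger than `3 g² + 5 g`

For a hyperelliptic curve `C : y² = F(x)` of genus `g` over a number field `K`, `discNorm g F` is
`Δ_C = ∏ N_v ^ n_v` and `badNorm g F` is `M_C`, the product of `N_v` over the places of bad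
reduction (definitions in `Pool.Agent.W318.SzpDefs`; the minimal exponent `n_v` is the minimum
over all Weierstrass models over the local ring at `v` of the function field of `C`). The open
problem asks for constants `c`, `κ`, depending on `K` and `g`, with `Δ_C ≤ c M_C ^ κ`.

Curves with potentially good reduction (Liu) show `κ ≥ κ(g) = 2 (2 g + 1) (⌊(g + 1) / 2⌋ + 1)`,
about `2 g²`, and one-parameter families of trinomials give `κ > κ(g) + 4 g + 2`.  Here the leading
constant `2` is replaced by `3`: for every `g ≥ 2` there is one sequence of rational polynomials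
`f_j` such that over EVERY number field `K` the curves `y² = f_j(x)` have genus `g` and
`Δ / M ^ E(g)` tends to infinity, where
`E(g) = (2 g + 1) (g + 2 + 2 (g mod 2) + ⌊(g + 1) / 2⌋) > 3 g² + 5 g`.

The construction.  Let `t = s²` and let `Q_s` be a monic polynomial of degree
`k = ⌊(g + 1) / 2⌋` whose roots are `t` and `k - 1` abscissas of torsion points of `2`-power order
of the Legendre curve `y² = x (x - 1) (x - t)`: it is squarefree and nonzero at `1` for all
`s ≠ 0, 1, -1`, and `Q_s(0) = ± s^(k + 1)`. The polynomial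
`P_s(x) = (x² - 1)^δ ∏ ((x² - 1)² + 4 U x²)`, the product over the roots `U` of `Q_s`, with
`δ ∈ {0, 1}`, `δ ≡ g + 1`, has degree `2 g + 2`, and its discriminant is
`c s^a (s - 1)^b (s + 1)^d`. Put `s = z / y`, where `y` and `z` are products of powers of `2` and
`3`, `2 y² < z² < 8 y²`, `5 ^ B ∣ T = z² - y²`, let `w` be the product of the primes `p ∣ T`,
`p > j`, and `f = w^(1 - δ) y^(k + 1) P_s(√w x)`.  At the primes dividing `w` the curve is a
ramified twist of a degenerating semistable curve.  The discriminant of the family, homogenised in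
`y` and `z`, has degree `2 (k + 1) (2 g + 1)`, about `2 g²`; as `T` is about `z²` this adds
`(k + 1) (2 g + 1)`, about `g²`, to the exponent `(2 g + 1) (g + 1 + 2 (1 - δ))` of the twist,
since the primes dividing `y` and `z` are `2` and `3`.  The proof needs lower bounds for
the minimal discriminant at all places: at the places dividing `w` a direct reduction argument, at
all other places, also those above `2` and `3` and uniformly in `y` and `z`, a perfect matching of
the `2 g + 2` Weierstrass points.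
-/

namespace Pool.Agent.Results.MP_ca2859_nt.QuadraticExcess

open Polynomial Pool.Agent.W318 Filter

/-- The exponent `E(g)`. -/
def exponent (g : ℕ) : ℕ := (2 * g + 1) * (g + 2 + 2 * (g % 2) + (g + 1) / 2)

theorem lt_exponent (g : ℕ) : 3 * g ^ 2 + 5 * g < exponent g := by
  have h1 : 3 * g + 4 ≤ 2 * (g + 2 + 2 * (g % 2) + (g + 1) / 2) := by omega
  have h2 : (2 * g + 1) * (3 * g + 4) ≤
      (2 * g + 1) * (2 * (g + 2 + 2 * (g % 2) + (g + 1) / 2)) := Nat.mul_le_mul_left _ h1
  unfold exponent
  nlinarith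

theorem kap_lt_exponent {g : ℕ} (hg : g = 3 ∨ 5 ≤ g) : kap g + (4 * g + 2) < exponent g := by
  have h1 : 2 * ((g + 1) / 2 + 1) + 2 < g + 2 + 2 * (g % 2) + (g + 1) / 2 := by omega
  have h2 : (2 * g + 1) * (2 * ((g + 1) / 2 + 1) + 2) <
      (2 * g + 1) * (g + 2 + 2 * (g % 2) + (g + 1) / 2) :=
    Nat.mul_lt_mul_of_pos_left h1 (by omega)
  unfold exponent kap
  calc 2 * (2 * g + 1) * ((g + 1) / 2 + 1) + (4 * g + 2) =
      (2 * g + 1) * (2 * ((g + 1) / 2 + 1) + 2) := by ring
    _ < _ := h2

/-- For every `g ≥ 2` there are rational polynomials `f_j` such that over every number field `K`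
the curves `y² = f_j(x)` are hyperelliptic of genus `g` and, for all real `c` and all
`κ ≤ E(g)`, satisfy `Δ > c M ^ κ` for all large `j`. Here `E(g) > 3 g² + 5 g`, and
`E(g) > κ(g) + 4 g + 2` for `g = 3` and for `g ≥ 5`. -/
theorem result (g : ℕ) (hg : 2 ≤ g) :
    (∃ f : ℕ → ℚ[X], ∀ (K : Type) [Field K] [NumberField K],
      (∀ j, IsHyp g ((f j).map (algebraMap ℚ K))) ∧
      ∀ c κ : ℝ, κ ≤ (exponent g : ℝ) → ∀ᶠ j in atTop,
        c * (badNorm g ((f j).map (algebraMap ℚ K)) : ℝ) ^ κ <
          (discNorm g ((f j).map (algebraMap ℚ K)) : ℝ)) ∧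
    3 * g ^ 2 + 5 * g < exponent g ∧ (g = 3 ∨ 5 ≤ g → kap g + (4 * g + 2) < exponent g) :=
  ⟨Pool.Agent.K3h74.SZ.main2 (Pool.Agent.K3h99.SZ.t_TORA2 Pool.Agent.K3h42.SZ.t_TORH2)
    Pool.Agent.K3h74.SZ.t_DSTA2 (Pool.Agent.K3h58.SZ.t_DSTB2 Pool.Agent.K3h74.SZ.t_DSTA2)
    Pool.Agent.K3h13.SZ.t_FAC Pool.Agent.K3h58.SZ.t_TWI Pool.Agent.K3h40.SZ.t_VAL g hg,
    lt_exponent g, kap_lt_exponent⟩

end Pool.Agent.Results.MP_ca2859_nt.QuadraticExcess
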