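import Mathlib
import Pool.Agent.K3h37.RS.Hyp

/-!
# Hyperelliptic curves with bad reduction only in a random infinite set of primes

Let `K` be a number field, and let `P(ω)` be a random set of primes of `K`, in general infinite, which
contains each finite set `T` of primes with probability at most `A * ∏ v ∈ T, N(v) ^ (-θ)`; for
example, the primes are chosen independently with the probabilities `N(v) ^ (-θ)`. For a finite set
`S` of primes let `H(P(ω) ∪ S)` be the set of the hyperelliptic curves `C : y² = d ∏ (X - e_i)` over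
`K`, of any genus `g ≥ 2`, with `2 g + 1` different roots `e_i ∈ K` and `d ≠ 0`, such that for
every prime `v` outside `P(ω) ∪ S` some quadratic twist of `C` over `K` has good reduction at `v`.
There is no restriction on heights.

1. For every `κ > 1 / 3` there is `θ₀ < 2 / 3` such that for `θ > θ₀` almost surely, for all finite
   `S` and all `g ≥ 2`, Szpiro's inequality `Δ_C ≤ c M_C ^ (4 g + 2 + 2 (4 g² - 1) κ)` holds for all
   curves of `H(P(ω) ∪ S)` of genus `g`, with `c = c(ω, S, g)`.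
2. For `θ > 2 / 3` almost surely, for all finite `S`, the cross ratios of the roots of all curves of
   `H(P(ω) ∪ S)` form a finite set, the genus is bounded and `Δ_C ≤ c M_C ^ (4 g + 2)`.
-/

set_option autoImplicit false

namespace Pool.Agent.Results.MP_ca2859_nt.RandomInfiniteSets

open NumberField IsDedekindDomain MeasureTheory Polynomial
open Pool.Agent.W318 (minExp discNorm badNorm)

/-- the right hand side of `y² = d ∏ (X - e_i)` -/
noncomputable def curve {K : Type} [Field K] {m : ℕ} (d : K) (e : Fin m → K) : K[X] :=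
  C d * ∏ i, (X - C (e i))

/-- the cross ratio of `∞` and the roots `e_i`, `e_j`, `e_k` -/
def ratio {K : Type} [Field K] {m : ℕ} (e : Fin m → K) (i j k : Fin m) : K :=
  (e i - e j) / (e i - e k)

variable {K : Type} [Field K] [NumberField K]

/-- The curves `y² = d ∏ (X - e_i)` of genus `g ≥ 2` with `2 g + 1` different roots `e_i ∈ K` such
that at each prime outside `P` some quadratic twist has good reduction. -/
structure Member (P : Set (HeightOneSpectrum (𝓞 K))) (g : ℕ) (d : K) (e : Fin (2 * g + 1) → K) :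
    Prop where
  two_le : 2 ≤ g
  inj : Function.Injective e
  d_ne : d ≠ 0
  good : ∀ v : HeightOneSpectrum (𝓞 K), v ∉ P → ∃ d' : K, d' ≠ 0 ∧ minExp g (curve d' e) v = 0

/-- the random set `P` of primes contains each finite set `T` of primes with probability at most
`A * ∏ v ∈ T, N(v) ^ (-θ)` -/
def Thin {Ω : Type*} [MeasurableSpace Ω] (μ : Measure Ω) (P : Ω → Set (HeightOneSpectrum (𝓞 K)))
    (A θ : ℝ) : Prop :=
  ∀ T : Finset (HeightOneSpectrum (𝓞 K)), μ {ω | ∀ v ∈ T, v ∈ P ω} ≤
    ENNReal.ofReal (A * ∏ v ∈ T, (Ideal.absNorm v.asIdeal : ℝ) ^ (-θ))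

/-- the primes of the random set `P` are independent, and `v` belongs to `P` with the probability
`N(v) ^ (-θ)` -/
def Independent {Ω : Type*} [MeasurableSpace Ω] (μ : Measure Ω)
    (P : Ω → Set (HeightOneSpectrum (𝓞 K))) (θ : ℝ) : Prop :=
  ∀ T : Finset (HeightOneSpectrum (𝓞 K)), MeasurableSet {ω | ∀ v ∈ T, v ∈ P ω} ∧
    μ {ω | ∀ v ∈ T, v ∈ P ω} =
      ENNReal.ofReal (∏ v ∈ T, (Ideal.absNorm v.asIdeal : ℝ) ^ (-θ))

section Aux

open Pool.Agent.K3h37 Pool.Agent.TH876.Loc

theorem nn_rpow (T : Finset (Pr K)) (θ : ℝ) :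
    nn T ^ θ = ∏ v ∈ T, (Ideal.absNorm v.asIdeal : ℝ) ^ θ := by
  unfold nn
  rw [← Real.finsetProd_rpow _ _ fun v _ => ?_]
  · rfl
  · exact Nat.cast_nonneg _

theorem thin_iff {Ω : Type*} [MeasurableSpace Ω] {μ : Measure Ω}
    {P : Ω → Set (HeightOneSpectrum (𝓞 K))} {A θ : ℝ} (h : Thin μ P A θ) : RS.Thin μ P A θ := by
  intro T
  rw [nn_rpow]
  exact h T

/-- the cross ratios -/
theorem ratio_mem {P : Set (HeightOneSpectrum (𝓞 K))} {g : ℕ} {d : K} {e : Fin (2 * g + 1) → K}
    (h : Member P g d e) {i j k : Fin (2 * g + 1)} (hij : i ≠ j) (hik : i ≠ k) (hjk : j ≠ k) :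
    ratio e i j k ∈ RS.Un (P ∪ (Pool.Agent.K3h24.SB.T2 K : Set (Pr K))) :=
  RS.ratio_mem h.two_le rfl h.inj h.good hij hik hjk

/-- the discriminant from a bound for the heights of the cross ratios -/
theorem disc_of_height (K : Type) [Field K] [NumberField K] (g : ℕ) (hg : 2 ≤ g) (κ C : ℝ)
    (hκ : 0 ≤ κ) : ∃ c : ℝ, ∀ (d : K) (e : Fin (2 * g + 1) → K), Function.Injective e → d ≠ 0 →
      (∀ i j k, i ≠ j → i ≠ k → j ≠ k →
        Height.logHeight₁ (ratio e i j k) ≤ κ * Real.log (nn (sp (-ratio e i j k))) + C) →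
      (discNorm g (curve d e) : ℝ) ≤
        c * (badNorm g (curve d e) : ℝ) ^ (4 * (g : ℝ) + 2 + 2 * (4 * (g : ℝ) ^ 2 - 1) * κ) := by
  classical
  have hgR : (2 : ℝ) ≤ g := by exact_mod_cast hg
  obtain ⟨c₁, hc₁⟩ := Pool.Agent.K3h2.HA.log_disc_le' K hg (rfl : 2 * g + 1 = 2 * g + 1)
  set two : ℝ := ∑ v ∈ (Pool.Agent.TH905.HS.finite_two K).toFinset,
    Real.log (Pool.Agent.H691R3.Nv v) with htwo
  refine ⟨Real.exp (2 * (4 * (g : ℝ) ^ 2 - 1) * (κ * two + C) + c₁), ?_⟩
  intro d e he hd hH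
  have h1 := hc₁ e he d hd (κ * (Real.log (badNorm g (curve d e)) + two) + C)
    (fun i j k hij hik hjk => by
      refine (hH i j k hij hik hjk).trans ?_
      have h2 := RS.log_nn_ratio hg rfl hd he hij hik hjk
      have h3 := mul_le_mul_of_nonneg_left h2 hκ
      exact add_le_add h3 le_rfl)
  have hD := Pool.Agent.K3h2.HA.discNorm_pos' (g := g) rfl hd he
  have hM := Pool.Agent.K3h2.HA.badNorm_pos' (g := g) rfl hd he
  have h5 : (0 : ℝ) < discNorm g (curve d e) := by exact_mod_cast hD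
  have h6 : (0 : ℝ) < badNorm g (curve d e) := by exact_mod_cast hM
  rw [← Real.exp_log h5, Real.rpow_def_of_pos h6, ← Real.exp_add]
  refine Real.exp_le_exp.2 (h1.trans (le_of_eq ?_))
  push_cast
  change 2 * (2 * (g : ℝ) + 1) * Real.log (badNorm g (curve d e)) +
    2 * (2 * g + 1) * (2 * g + 1 - 2) * (κ * (Real.log (badNorm g (curve d e)) + two) + C) + c₁ = _
  ring

/-- the genus and the number of the cross ratios -/
theorem genus_le {P : Set (HeightOneSpectrum (𝓞 K))} {g : ℕ} {d : K} {e : Fin (2 * g + 1) → K}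
    (h : Member P g d e) {F : Finset K}
    (hF : ∀ i j k, i ≠ j → i ≠ k → j ≠ k → ratio e i j k ∈ F) : g ≤ F.card + 1 := by
  classical
  have hg := h.two_le
  have he := h.inj
  -- the roots from the third on
  let a : Fin (2 * g + 1) := ⟨0, by omega⟩
  let b : Fin (2 * g + 1) := ⟨1, by omega⟩
  let f : Fin (2 * g - 1) → Fin (2 * g + 1) := fun j => ⟨j.1 + 2, by omega⟩
  have hab : a ≠ b := by
    intro h'
    have := congrArg Fin.val h'
    simp [a, b] at this
  have haf : ∀ j, a ≠ f j := by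
    intro j h'
    have := congrArg Fin.val h'
    simp [a, f] at this
  have hbf : ∀ j, b ≠ f j := by
    intro j h'
    have := congrArg Fin.val h'
    simp [b, f] at this
  have h1 : (Finset.univ.image fun j => ratio e a (f j) b).card ≤ F.card :=
    Finset.card_le_card fun x hx => by
      obtain ⟨j, _, rfl⟩ := Finset.mem_image.1 hx
      exact hF a (f j) b (haf j) hab (hbf j).symm
  have hinj : Function.Injective fun j => ratio e a (f j) b := by
    intro j j' hjj
    have h0 : e a - e b ≠ 0 := sub_ne_zero.2 (he.ne hab)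
    have h2 : (e a - e (f j)) / (e a - e b) = (e a - e (f j')) / (e a - e b) := hjj
    have h3 : e a - e (f j) = e a - e (f j') := by
      field_simp at h2
      exact h2
    have h4 : f j = f j' := he (by linear_combination -h3)
    have h5 := congrArg Fin.val h4
    simp only [f] at h5
    exact Fin.ext (by omega)
  rw [Finset.card_image_of_injective _ hinj, Finset.card_univ, Fintype.card_fin] at h1
  omega

end Aux

open Pool.Agent.K3h37 Pool.Agent.TH876.Loc in
/-- **Szpiro's inequality for all hyperelliptic curves with rational Weierstrass points and bad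
reduction in a random infinite set of primes.** Let `K` be a number field.
(1) For every `κ > 1 / 3` there is `θ₀ < 2 / 3` such that, for every random set `P(ω)` of primes which
contains each finite set `T` of primes with probability at most `A * ∏ v ∈ T, N(v) ^ (-θ)`, `θ > θ₀`,
almost surely, for ALL finite sets `S` and ALL `g ≥ 2`, there is `c` with
`Δ_C ≤ c M_C ^ (4 g + 2 + 2 (4 g² - 1) κ)` for all the curves `C` of genus `g` with twists of good
reduction outside `P(ω) ∪ S`.
(2) If `θ > 2 / 3` then almost surely, for ALL finite sets `S`, there are a finite set `F` and `c` such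
that, for all these curves of all genera, the cross ratios are in `F`, `g ≤ |F| + 1` and
`Δ_C ≤ c M_C ^ (4 g + 2)`.
(3) For every `θ ≥ 0` there is a random set as in (1), (2), with `A = 1`: independent primes, with the
probabilities `N(v) ^ (-θ)`. -/
theorem result (K : Type) [Field K] [NumberField K] :
    (∀ κ : ℝ, 1 / 3 < κ → ∃ θ₀ : ℝ, 0 ≤ θ₀ ∧ θ₀ < 2 / 3 ∧ ∀ θ : ℝ, θ₀ < θ →
      ∀ (Ω : Type) [MeasurableSpace Ω] (μ : Measure Ω) (P : Ω → Set (HeightOneSpectrum (𝓞 K)))
        (A : ℝ), Thin μ P A θ → ∀ᵐ ω ∂μ, ∀ S : Finset (HeightOneSpectrum (𝓞 K)), ∀ g : ℕ,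
          ∃ c : ℝ, ∀ (d : K) (e : Fin (2 * g + 1) → K), Member (P ω ∪ S) g d e →
            (discNorm g (curve d e) : ℝ) ≤ c *
              (badNorm g (curve d e) : ℝ) ^ (4 * (g : ℝ) + 2 + 2 * (4 * (g : ℝ) ^ 2 - 1) * κ)) ∧
    (∀ θ : ℝ, 2 / 3 < θ →
      ∀ (Ω : Type) [MeasurableSpace Ω] (μ : Measure Ω) (P : Ω → Set (HeightOneSpectrum (𝓞 K)))
        (A : ℝ), Thin μ P A θ → ∀ᵐ ω ∂μ, ∀ S : Finset (HeightOneSpectrum (𝓞 K)),
          ∃ (F : Finset K) (c : ℝ), ∀ (g : ℕ) (d : K) (e : Fin (2 * g + 1) → K),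
            Member (P ω ∪ S) g d e →
              (∀ i j k, i ≠ j → i ≠ k → j ≠ k → ratio e i j k ∈ F) ∧ g ≤ F.card + 1 ∧
              (discNorm g (curve d e) : ℝ) ≤ c * (badNorm g (curve d e) : ℝ) ^ (4 * g + 2)) ∧
    ∀ θ : ℝ, 0 ≤ θ → ∃ (Ω : Type) (_ : MeasurableSpace Ω) (μ : Measure Ω)
      (P : Ω → Set (HeightOneSpectrum (𝓞 K))), IsProbabilityMeasure μ ∧ Independent μ P θ := by
  classical
  have hset : ∀ (Q : Set (Pr K)) (S : Finset (Pr K)),
      Q ∪ ((S ∪ Pool.Agent.K3h24.SB.T2 K : Finset (Pr K)) : Set (Pr K)) =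
        (Q ∪ S) ∪ (Pool.Agent.K3h24.SB.T2 K : Set (Pr K)) := by
    intro Q S
    rw [Finset.coe_union, Set.union_assoc]
  refine ⟨?_, ?_, ?_⟩
  · intro κ hκ
    obtain ⟨θ₀, h0, h1, h2⟩ := RS.ae_height K hκ
    refine ⟨θ₀, h0, h1, fun θ hθ Ω _ μ P A hP => ?_⟩
    filter_upwards [h2 θ hθ Ω μ P A (thin_iff hP)] with ω hω S g
    obtain ⟨C, hC, h3⟩ := hω (S ∪ Pool.Agent.K3h24.SB.T2 K)
    rw [hset] at h3
    by_cases hg : 2 ≤ g
    · obtain ⟨c, hc⟩ := disc_of_height K g hg κ C (by linarith)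
      exact ⟨c, fun d e h => hc d e h.inj h.d_ne fun i j k hij hik hjk =>
        h3 _ (ratio_mem h hij hik hjk)⟩
    · exact ⟨0, fun d e h => absurd h.two_le hg⟩
  · intro θ hθ Ω _ μ P A hP
    filter_upwards [RS.ae_finite K hθ Ω μ P A (thin_iff hP)] with ω hω S
    have hf := hω (S ∪ Pool.Agent.K3h24.SB.T2 K)
    rw [hset] at hf
    obtain ⟨M, hM⟩ := (hf.image (fun x : K => Height.logHeight₁ x)).bddAbove
    have hc : ∀ g : ℕ, ∃ c : ℝ, ∀ (d : K) (e : Fin (2 * g + 1) → K), Member (P ω ∪ S) g d e →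
        (discNorm g (curve d e) : ℝ) ≤ c * (badNorm g (curve d e) : ℝ) ^ (4 * g + 2) := by
      intro g
      by_cases hg : 2 ≤ g
      · obtain ⟨c, hc⟩ := disc_of_height K g hg 0 M le_rfl
        refine ⟨c, fun d e h => ?_⟩
        have h4 := hc d e h.inj h.d_ne fun i j k hij hik hjk => by
          rw [zero_mul, zero_add]
          exact hM ⟨_, ratio_mem h hij hik hjk, rfl⟩
        rw [mul_zero, add_zero] at h4
        have h5 : (4 * (g : ℝ) + 2) = ((4 * g + 2 : ℕ) : ℝ) := by push_cast; ring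
        rw [h5, Real.rpow_natCast] at h4
        exact h4
      · exact ⟨0, fun d e h => absurd h.two_le hg⟩
    choose c hc using hc
    refine ⟨hf.toFinset, ∑ g ∈ Finset.range (hf.toFinset.card + 2), |c g|, fun g d e h => ?_⟩
    have h6 : ∀ i j k, i ≠ j → i ≠ k → j ≠ k → ratio e i j k ∈ hf.toFinset := by
      intro i j k hij hik hjk
      rw [Set.Finite.mem_toFinset]
      exact ratio_mem h hij hik hjk
    have h7 := genus_le h h6
    refine ⟨h6, h7, (hc g d e h).trans ?_⟩
    refine mul_le_mul_of_nonneg_right ?_ (by positivity)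
    exact (le_abs_self _).trans (Finset.single_le_sum (f := fun g => |c g|)
      (fun _ _ => abs_nonneg _) (Finset.mem_range.2 (by omega)))
  · intro θ hθ
    obtain ⟨Ω, i1, μ, P, h1, h2⟩ := RS.exists_indep K θ hθ
    refine ⟨Ω, i1, μ, P, h1, fun T => ?_⟩
    rw [← nn_rpow]
    exact h2 T

end Pool.Agent.Results.MP_ca2859_nt.RandomInfiniteSets
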